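import Pool.Agent.W69.MD.Iter

/-!
# Hadamard orders just above a given number
-/

set_option autoImplicit false

namespace Pool.Agent.Y302.AH

open Pool.Agent.W851.Had Pool.Agent.H108R3.Had Pool.Agent.W69.MD

/-- the exponent `C ^ (1 + log* n)` is tiny -/
theorem small_exp (C : ℕ) (hC : 2 ≤ C) : ∃ N : ℕ, ∀ n : ℕ, N ≤ n → ∃ k : ℕ, n ≤ tow k ∧
    (2 : ℝ) ^ (C ^ (k + 1)) ≤ Real.log (Real.log n) := by
  obtain ⟨a₀, ha₀⟩ := exp_le_tow C 6 hC
  refine ⟨tow (a₀ + 2 * 2) + 1, fun n hn => ?_⟩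
  have hex : ∃ k, n ≤ tow k := ⟨n, (lt_tow n).le⟩
  obtain ⟨k, hk1, hk2⟩ : ∃ k, n ≤ tow k ∧ ∀ i < k, tow i < n :=
    ⟨Nat.find hex, Nat.find_spec hex, fun i hi => not_le.1 (Nat.find_min hex hi)⟩
  have hka : a₀ + 2 * 2 < k := by
    by_contra hcon
    push Not at hcon
    have := hk1.trans (tow_mono hcon)
    omega
  obtain ⟨a, ha⟩ : ∃ a, k = a + 2 * 2 + 1 := ⟨k - (2 * 2 + 1), by omega⟩
  have haa : a₀ ≤ a := by omega
  have h1 : (tow (a + 2 * 2) : ℝ) ≤ n := by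
    exact_mod_cast (hk2 (a + 2 * 2) (by omega)).le
  have h2 := iter_log_tow 2 a n h1
  have h3 := ha₀ a haa
  refine ⟨k, hk1, ?_⟩
  have e : k + 1 = a + 6 := by omega
  rw [e]
  have h4 : (2 : ℝ) ^ (C ^ (a + 6)) ≤ Real.exp (2 * 2 ^ (C ^ (a + 6))) := by
    have := Real.add_one_le_exp (2 * (2 : ℝ) ^ (C ^ (a + 6)))
    have : (0 : ℝ) < 2 ^ (C ^ (a + 6)) := by positivity
    linarith
  refine h4.trans (h3.trans ?_)
  simpa using h2

/-- There is a Hadamard matrix of order `n + r` with `r ≤ log log n`. -/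
theorem near_order : ∃ n₀ : ℕ, ∀ n : ℕ, n₀ ≤ n → ∃ r : ℕ, (r : ℝ) ≤ Real.log (Real.log n) ∧
    HasHad (n + r) := by
  obtain ⟨C, hC, hhad⟩ := main_had
  obtain ⟨N, hN⟩ := small_exp C hC
  refine ⟨N + 1, fun n hn => ?_⟩
  obtain ⟨k, hk, hT⟩ := hN n (by omega)
  set T := C ^ (k + 1) with hTdef
  have hp : 0 < 2 ^ T := by positivity
  -- `q = ⌈n / 2 ^ T⌉`
  set q := (n + (2 ^ T - 1)) / 2 ^ T with hq
  have h1 : 2 ^ T * q ≤ n + (2 ^ T - 1) := Nat.mul_div_le _ _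
  have h2 : n + (2 ^ T - 1) < 2 ^ T * q + 2 ^ T := by
    have := Nat.lt_mul_div_succ (n + (2 ^ T - 1)) hp
    rw [← hq, mul_add, mul_one] at this
    exact this
  have h3 : n ≤ 2 ^ T * q := by omega
  have hqn : q ≤ n := by
    have h5 : 1 ≤ n := by omega
    by_contra hc
    push Not at hc
    have h6 : 2 ^ T * (n + 1) ≤ 2 ^ T * q := Nat.mul_le_mul_left _ hc
    have h7 : n ≤ 2 ^ T * n := Nat.le_mul_of_pos_left _ hp
    rw [mul_add, mul_one] at h6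
    omega
  refine ⟨2 ^ T * q - n, ?_, ?_⟩
  · refine le_trans ?_ hT
    have h4 : 2 ^ T * q - n ≤ 2 ^ T := by omega
    exact_mod_cast h4
  · have e : n + (2 ^ T * q - n) = 2 ^ T * q := by omega
    rw [e]
    exact hhad k q T (hqn.trans hk) le_rfl

end Pool.Agent.Y302.AH
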