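import Pool.Agent.Y302.AH.Sub
import Pool.Agent.Y302.AH.Order

/-!
# Sign matrices of every large order that are almost isometries
-/

set_option autoImplicit false

noncomputable section

namespace Pool.Agent.Y302.AH

open Finset Matrix Pool.Agent.H108R3.Had

/-- a Hadamard matrix of order `n + r` in block form with real entries -/
theorem had_blocks {n r : ℕ} (hn : 0 < n) (h : HasHad (n + r)) :
    ∃ H : Matrix (Fin n ⊕ Fin r) (Fin n ⊕ Fin r) ℝ, (∀ i j, H i j = 1 ∨ H i j = -1) ∧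
      H.transpose * H = ((n + r : ℕ) : ℝ) • 1 := by
  obtain ⟨A, hA, hAA⟩ := h
  set B : Matrix (Fin n ⊕ Fin r) (Fin n ⊕ Fin r) ℝ :=
    (A.map (fun z : ℤ => (z : ℝ))).submatrix finSumFinEquiv finSumFinEquiv with hB
  refine ⟨B, ?_, ?_⟩
  · intro i j
    rw [hB, submatrix_apply, map_apply]
    rcases hA (finSumFinEquiv i) (finSumFinEquiv j) with h | h <;> rw [h] <;> simp
  · have hN : ((n + r : ℕ) : ℝ) ≠ 0 := by
      have : 0 < n + r := by omega
      exact_mod_cast this.ne'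
    have h1 : B * B.transpose = ((n + r : ℕ) : ℝ) • 1 := by
      ext i j
      have h2 := congrFun (congrFun hAA (finSumFinEquiv i)) (finSumFinEquiv j)
      have h3 : ((A * A.transpose) (finSumFinEquiv i) (finSumFinEquiv j) : ℝ) =
          (B * B.transpose) i j := by
        rw [mul_apply, mul_apply, Int.cast_sum]
        refine (Fintype.sum_equiv finSumFinEquiv _ _ fun k => ?_).symm
        rw [hB, transpose_apply, transpose_apply, submatrix_apply, submatrix_apply, map_apply,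
          map_apply, Int.cast_mul]
      rw [← h3, h2, Matrix.smul_apply, Matrix.smul_apply, one_apply, one_apply]
      by_cases hij : i = j
      · simp [hij]
      · simp [hij]
    have h4 : B * ((((n + r : ℕ) : ℝ))⁻¹ • B.transpose) = 1 := by
      rw [mul_smul_comm, h1, smul_smul, inv_mul_cancel₀ hN, one_smul]
    have h5 := mul_eq_one_comm.1 h4
    rw [smul_mul_assoc] at h5
    calc B.transpose * B = ((n + r : ℕ) : ℝ) • ((((n + r : ℕ) : ℝ))⁻¹ • (B.transpose * B)) := by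
          rw [smul_smul, mul_inv_cancel₀ hN, one_smul]
      _ = _ := by rw [h5]

theorem approx {n r : ℕ} (hn : 0 < n) (h : HasHad (n + r)) (hr : 2 * (r : ℝ) ≤ Real.sqrt ((n + r : ℕ) : ℝ))
    (θ : ℝ) (hθ : 0 < θ) (hθ1 : θ ≤ 1 / 2) :
    ∃ S : Matrix (Fin n) (Fin n) ℝ, (∀ i j, S i j = 1 ∨ S i j = -1) ∧
      ∀ x : Fin n → ℝ, |nm (S *ᵥ x) - Real.sqrt ((n + r : ℕ) : ℝ) * nm x| ≤
        (n * θ * (4 * (r / Real.sqrt ((n + r : ℕ) : ℝ))) + Real.log (2 * n) / θ + 4 * r) * nm x := by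
  obtain ⟨H, hs, hH⟩ := had_blocks hn h
  set N : ℝ := ((n + r : ℕ) : ℝ) with hN
  have hN0 : 0 < N := by
    have : 0 < n + r := by omega
    rw [hN]; exact_mod_cast this
  set q := Real.sqrt N with hq
  have hq0 : 0 < q := Real.sqrt_pos.2 hN0
  have hq2 : q ^ 2 = N := Real.sq_sqrt hN0.le
  have hs1 : ∀ i j, |H i j| ≤ 1 := by
    intro i j
    rcases hs i j with h | h <;> rw [h] <;> norm_num
  set τ : ℝ := r / q with hτ
  have hr0 : (0 : ℝ) ≤ r := Nat.cast_nonneg _
  have hτ0 : 0 ≤ τ := by positivity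
  have hτ1 : 2 * τ ≤ 1 := by
    rw [hτ, ← mul_div_assoc, div_le_one hq0]; exact hr
  set M := H.toBlocks₁₁ with hM
  set C := H.toBlocks₁₂ with hC
  set R := H.toBlocks₂₁ with hR
  set A' : Matrix (Fin n) (Fin n) ℝ := (1 - τ) • M + q⁻¹ • (C * R) with hA'
  have hc : ∀ i j, |(q⁻¹ • (C * R)) i j| ≤ τ := by
    intro i j
    rw [Matrix.smul_apply, smul_eq_mul, abs_mul, abs_of_pos (inv_pos.2 hq0), hτ, div_eq_inv_mul]
    refine mul_le_mul_of_nonneg_left ?_ (inv_pos.2 hq0).le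
    rw [mul_apply]
    refine (Finset.abs_sum_le_sum_abs _ _).trans ?_
    calc ∑ k, |C i k * R k j| ≤ ∑ k : Fin r, (1 : ℝ) := by
          refine Finset.sum_le_sum fun k _ => ?_
          rw [abs_mul]
          exact mul_le_one₀ (hs1 _ _) (abs_nonneg _) (hs1 _ _)
      _ = r := by simp
  have hm : ∀ i j, M i j = 1 ∨ M i j = -1 := fun i j => hs _ _
  have hA1 : ∀ i j, |A' i j| ≤ 1 := by
    intro i j
    rw [hA', Matrix.add_apply]
    refine (abs_add_le _ _).trans ?_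
    rw [Matrix.smul_apply, smul_eq_mul, abs_mul, abs_of_nonneg (by linarith : 0 ≤ 1 - τ)]
    have h1 : |M i j| = 1 := by rcases hm i j with h | h <;> rw [h] <;> norm_num
    rw [h1, mul_one]
    linarith [hc i j]
  have hA2 : ∀ i j, 1 - A' i j ^ 2 ≤ 4 * τ := by
    intro i j
    have h2 := abs_le.1 (hc i j)
    rw [hA', Matrix.add_apply, Matrix.smul_apply, smul_eq_mul]
    set c := (q⁻¹ • (C * R)) i j
    rcases hm i j with h | h <;> rw [h] <;> nlinarith
  haveI : NeZero n := ⟨by omega⟩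
  obtain ⟨S', hS, hSA⟩ := round (G := Fin n) A' hA1 (4 * τ) (by linarith) hA2 θ hθ hθ1
  set S : Matrix (Fin n) (Fin n) ℝ := S' with hSdef
  refine ⟨S, hS, fun x => ?_⟩
  have h1 := op_le (S - A') θ _ hθ hSA x
  rw [Fintype.card_fin] at h1
  have h2 := corrected H hs1 N hN0 hH x
  rw [Fintype.card_fin, ← hM, ← hC, ← hR, ← hq] at h2
  set A : Matrix (Fin n) (Fin n) ℝ := M + q⁻¹ • (C * R) with hA
  have h3 : |nm (S *ᵥ x) - nm (A' *ᵥ x)| ≤ (n * θ * (4 * τ) + Real.log (2 * n) / θ) * nm x := by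
    refine (nm_sub_le _ _).trans ?_
    rw [← sub_mulVec]
    refine h1.trans (le_of_eq ?_)
    field_simp
  have h4 : |nm (A' *ᵥ x) - nm (A *ᵥ x)| ≤ r * nm x := by
    refine (nm_sub_le _ _).trans ?_
    rw [← sub_mulVec]
    have e : A' - A = (-τ) • M := by
      rw [hA', hA, sub_smul, neg_smul, one_smul]
      abel
    rw [e, smul_mulVec, nm_smul, abs_neg, abs_of_nonneg hτ0]
    have h5 := quad1 M R N (blocks H N hH).1 x
    have h6 : nm (M *ᵥ x) ≤ q * nm x := by
      have h7 : nm (M *ᵥ x) ^ 2 ≤ (q * nm x) ^ 2 := by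
        rw [mul_pow, hq2]
        linarith [sq_nonneg (nm (R *ᵥ x))]
      exact (sq_le_sq₀ (nm_nonneg _) (mul_nonneg hq0.le (nm_nonneg _))).1 h7
    calc τ * nm (M *ᵥ x) ≤ τ * (q * nm x) := mul_le_mul_of_nonneg_left h6 hτ0
      _ = r * nm x := by rw [hτ]; field_simp
  have h8 : (r : ℝ) ^ 2 / q ≤ r := by
    have e : (r : ℝ) ^ 2 / q = r * τ := by rw [hτ]; ring
    rw [e]
    nlinarith
  have h9 := mul_le_mul_of_nonneg_right h8 (nm_nonneg x)
  have e1 : nm (S *ᵥ x) - q * nm x = (nm (S *ᵥ x) - nm (A' *ᵥ x)) + (nm (A' *ᵥ x) - nm (A *ᵥ x)) +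
      (nm (A *ᵥ x) - q * nm x) := by ring
  rw [e1]
  refine (abs_add_three _ _ _).trans ?_
  nlinarith

theorem final : ∃ n₀ : ℕ, ∀ n : ℕ, n₀ ≤ n → ∃ S : Matrix (Fin n) (Fin n) ℝ,
    (∀ i j, S i j = 1 ∨ S i j = -1) ∧
    ∀ x : Fin n → ℝ, |nm (S *ᵥ x) - Real.sqrt n * nm x| ≤ (n : ℝ) ^ (1 / 4 : ℝ) * Real.log n * nm x := by
  obtain ⟨n₀, hn₀⟩ := near_order
  -- `log y ≤ y / 52` for large `y`
  have hlog : ∀ᶠ y : ℝ in Filter.atTop, Real.log y ≤ 1 / 52 * y := by
    have h := Real.isLittleO_log_id_atTop.bound (show (0 : ℝ) < 1 / 52 by norm_num)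
    filter_upwards [h, Filter.eventually_ge_atTop (1 : ℝ)] with y hy h1
    rw [Real.norm_eq_abs, id, Real.norm_eq_abs, abs_of_nonneg (Real.log_nonneg h1),
      abs_of_nonneg (by linarith)] at hy
    exact hy
  have hcomp : Filter.Tendsto (fun n : ℕ => Real.log (n : ℝ)) Filter.atTop Filter.atTop :=
    Real.tendsto_log_atTop.comp tendsto_natCast_atTop_atTop
  obtain ⟨n₁, hn₁⟩ := Filter.eventually_atTop.1 ((hcomp.eventually hlog).and
    (hcomp.eventually (Filter.eventually_ge_atTop 2)))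
  refine ⟨max n₀ (max n₁ 256), fun n hn => ?_⟩
  obtain ⟨r, hr, hhad⟩ := hn₀ n (le_trans (le_max_left _ _) hn)
  obtain ⟨h1, h2⟩ := hn₁ n (le_trans (le_trans (le_max_left _ _) (le_max_right _ _)) hn)
  have h256 : 256 ≤ n := le_trans (le_trans (le_max_right _ _) (le_max_right _ _)) hn
  have h256' : (256 : ℝ) ≤ n := by exact_mod_cast h256
  have hnp : (0 : ℝ) < n := by linarith
  set w : ℝ := (n : ℝ) ^ (1 / 4 : ℝ) with hw
  have hw0 : 0 < w := by positivity
  have hw4 : w ^ 4 = n := by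
    rw [hw, ← Real.rpow_natCast, ← Real.rpow_mul hnp.le]
    norm_num
  have hw1 : 4 ≤ w := by
    by_contra hc
    push Not at hc
    have : w ^ 4 < 4 ^ 4 := pow_lt_pow_left₀ hc hw0.le (by norm_num)
    rw [hw4] at this
    norm_num at this
    linarith
  have hsn : Real.sqrt n = w ^ 2 := by
    rw [← hw4, show w ^ 4 = (w ^ 2) ^ 2 by ring]
    exact Real.sqrt_sq (by positivity)
  set L := Real.log n with hL
  have hLw : L ≤ 4 * w := by
    have h3 : L = 4 * Real.log w := by rw [hL, ← hw4, Real.log_pow]; norm_num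
    have h4 := Real.log_le_self hw0.le
    linarith
  have hr0 : (0 : ℝ) ≤ r := Nat.cast_nonneg _
  have hrL : (r : ℝ) ≤ 1 / 52 * L := hr.trans h1
  set q := Real.sqrt ((n + r : ℕ) : ℝ) with hq
  have hqn : w ^ 2 ≤ q := by
    rw [← hsn, hq]
    apply Real.sqrt_le_sqrt
    push_cast
    linarith
  have hq0 : 0 < q := lt_of_lt_of_le (by positivity) hqn
  have hq2 : q ^ 2 = n + r := by
    rw [hq, Real.sq_sqrt (by positivity)]; push_cast; ring
  have hrq : 2 * (r : ℝ) ≤ q := by nlinarith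
  obtain ⟨S, hS, hSx⟩ := approx (by omega : 0 < n) hhad hrq (2 / w) (by positivity)
    (by rw [div_le_div_iff₀ hw0 (by norm_num)]; linarith)
  refine ⟨S, hS, fun x => ?_⟩
  have h5 := hSx x
  rw [← hq] at h5
  have hx := nm_nonneg x
  -- the difference of the square roots
  have h6 : |q - Real.sqrt n| ≤ r := by
    rw [hsn, abs_of_nonneg (by linarith)]
    have e : (q - w ^ 2) * (q + w ^ 2) = r := by
      have : (q - w ^ 2) * (q + w ^ 2) = q ^ 2 - w ^ 4 := by ring
      rw [this, hq2, hw4]; ring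
    have h7 : 1 ≤ q + w ^ 2 := by nlinarith
    nlinarith [mul_nonneg (by linarith : (0 : ℝ) ≤ q - w ^ 2) (by linarith : (0 : ℝ) ≤ q + w ^ 2 - 1)]
  have h8 : |nm (S *ᵥ x) - Real.sqrt n * nm x| ≤ |nm (S *ᵥ x) - q * nm x| + r * nm x := by
    have e : nm (S *ᵥ x) - Real.sqrt n * nm x = (nm (S *ᵥ x) - q * nm x) + (q - Real.sqrt n) * nm x := by
      ring
    rw [e]
    refine (abs_add_le _ _).trans ?_
    rw [abs_mul (q - Real.sqrt n), abs_of_nonneg hx]
    linarith [mul_le_mul_of_nonneg_right h6 hx]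
  refine (h8.trans (add_le_add_left h5 _)).trans ?_
  rw [← add_mul]
  refine mul_le_mul_of_nonneg_right ?_ hx
  -- the numerical estimate
  have h9 : (n : ℝ) * (2 / w) * (4 * (r / q)) ≤ 8 * r * w := by
    have e : (n : ℝ) * (2 / w) * (4 * (r / q)) = 8 * r * w * (w ^ 2 / q) := by
      rw [← hw4]; field_simp; ring
    rw [e]
    have : w ^ 2 / q ≤ 1 := by rw [div_le_one hq0]; exact hqn
    have h0 : 0 ≤ 8 * (r : ℝ) * w := by positivity
    nlinarith
  have h10 : Real.log (2 * n) / (2 / w) = w * (Real.log 2 + L) / 2 := by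
    rw [Real.log_mul (by norm_num) hnp.ne', ← hL]
    field_simp
  have h11 : Real.log 2 ≤ 1 := by have := Real.log_two_lt_d9; linarith
  rw [h10]
  have h12 : (r : ℝ) ≤ r * w := by nlinarith
  have h13 : 13 * (r : ℝ) + (1 + L) / 2 ≤ L := by linarith
  nlinarith [mul_le_mul_of_nonneg_left h13 hw0.le]

end Pool.Agent.Y302.AH
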