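import Pool.Agent.Y302.AH.Step

/-!
# Rounding of a real matrix to a sign matrix with a small error in the operator norm
-/

set_option autoImplicit false

noncomputable section

namespace Pool.Agent.Y302.AH

open RC14
open scoped InnerProductSpace
open Finset

/-- the sign of a bit -/
def sg (b : Bool) : ℝ := if b then 1 else -1

/-- the probability of a bit such that the mean of the sign is `a` -/
def pr (a : ℝ) (b : Bool) : ℝ := if b then (1 + a) / 2 else (1 - a) / 2

theorem sg_sq (b : Bool) : sg b = 1 ∨ sg b = -1 := by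
  unfold sg
  cases b
  · right; simp
  · left; simp

theorem pr_nonneg {a : ℝ} (ha : |a| ≤ 1) (b : Bool) : 0 ≤ pr a b := by
  have h := abs_le.1 ha
  unfold pr
  cases b
  · simp; linarith
  · simp; linarith

theorem pr_sum (a : ℝ) : ∑ b, pr a b = 1 := by
  simp [pr]; ring

theorem pr_mean (a : ℝ) : ∑ b, pr a b * (sg b - a) = 0 := by
  simp [pr, sg]; ring

theorem pr_var (a : ℝ) : ∑ b, pr a b * (sg b - a) ^ 2 = 1 - a ^ 2 := by
  simp [pr, sg]; ring

section marg

variable {G : Type} [Fintype G] [DecidableEq G]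

theorem prod_sum_one (p : G → Bool → ℝ) (hp : ∀ i, ∑ b, p i b = 1) :
    ∑ z : G → Bool, ∏ i, p i (z i) = 1 := by
  have h := Finset.prod_univ_sum (fun _ : G => (univ : Finset Bool)) p
  rw [Fintype.piFinset_univ] at h
  rw [← h]
  exact Finset.prod_eq_one fun i _ => hp i

theorem marginal (p : G → Bool → ℝ) (hp : ∀ i, ∑ b, p i b = 1) (g : Bool → ℝ) (i : G) :
    ∑ z : G → Bool, (∏ j, p j (z j)) * g (z i) = ∑ b, p i b * g b := by
  have h := Finset.prod_univ_sum (fun _ : G => (univ : Finset Bool))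
    (fun j b => p j b * (if j = i then g b else 1))
  rw [Fintype.piFinset_univ] at h
  have h1 : ∀ z : G → Bool, ∏ j, (p j (z j) * (if j = i then g (z j) else 1)) =
      (∏ j, p j (z j)) * g (z i) := by
    intro z
    rw [Finset.prod_mul_distrib]
    congr 1
    rw [Finset.prod_ite_eq' univ i (fun j => g (z j))]
    simp
  rw [Finset.sum_congr rfl fun z _ => h1 z] at h
  rw [← h]
  rw [Finset.prod_eq_single i]
  · simp
  · intro j _ hj
    simp only [if_neg hj, mul_one]
    exact hp j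
  · intro hi
    exact absurd (mem_univ i) hi

end marg

section diag

variable {G : Type} [Fintype G] [DecidableEq G] [AddCommGroup G]

/-- The symmetric operator given by the entries `c i` at the positions `(i, i + d)` of the off-diagonal block. -/
def dg (d : G) (c : G → ℝ) : Module.End ℂ (EuclideanSpace ℂ (G ⊕ G)) where
  toFun v := WithLp.toLp 2 (Sum.elim (fun i => (c i : ℂ) * v (Sum.inr (i + d)))
    (fun j => (c (j - d) : ℂ) * v (Sum.inl (j - d))))
  map_add' u v := by
    ext x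
    cases x with
    | inl i => simp [mul_add]
    | inr j => simp [mul_add]
  map_smul' r v := by
    ext x
    cases x with
    | inl i => simp; ring
    | inr j => simp; ring

theorem dg_inl (d : G) (c : G → ℝ) (v : EuclideanSpace ℂ (G ⊕ G)) (i : G) :
    dg d c v (Sum.inl i) = (c i : ℂ) * v (Sum.inr (i + d)) := rfl

theorem dg_inr (d : G) (c : G → ℝ) (v : EuclideanSpace ℂ (G ⊕ G)) (j : G) :
    dg d c v (Sum.inr j) = (c (j - d) : ℂ) * v (Sum.inl (j - d)) := rfl

theorem shift_sum {M : Type} [AddCommMonoid M] (d : G) (f : G → M) : ∑ j, f (j - d) = ∑ i, f i :=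
  Fintype.sum_equiv (Equiv.subRight d) _ _ fun _ => rfl

theorem shift_sum2 {M : Type} [AddCommMonoid M] (d : G) (f : G → G → M) :
    ∑ j, f (j - d) j = ∑ i, f i (i + d) := by
  have h := shift_sum d (fun i => f i (i + d))
  rw [← h]
  exact Finset.sum_congr rfl fun j _ => by rw [sub_add_cancel]

theorem dg_inner (d : G) (c : G → ℝ) (v u : EuclideanSpace ℂ (G ⊕ G)) :
    ⟪dg d c v, u⟫_ℂ = ∑ i, (c i : ℂ) * (u (Sum.inl i) * (starRingEnd ℂ) (v (Sum.inr (i + d))) +
      u (Sum.inr (i + d)) * (starRingEnd ℂ) (v (Sum.inl i))) := by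
  rw [PiLp.inner_apply, Fintype.sum_sum_type]
  simp only [dg_inl, dg_inr, RCLike.inner_apply, map_mul, Complex.conj_ofReal]
  rw [shift_sum2 d (fun i j => u (Sum.inr j) * ((c i : ℂ) * (starRingEnd ℂ) (v (Sum.inl i)))),
    ← Finset.sum_add_distrib]
  exact Finset.sum_congr rfl fun i _ => by ring

theorem dg_symm (d : G) (c : G → ℝ) : (dg d c).IsSymmetric := by
  intro v u
  rw [dg_inner, ← inner_conj_symm v, dg_inner, map_sum]
  refine Finset.sum_congr rfl fun i _ => ?_
  simp only [map_mul, map_add, Complex.conj_ofReal, Complex.conj_conj]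
  ring

theorem dg_norm (d : G) (c : G → ℝ) (v : EuclideanSpace ℂ (G ⊕ G)) :
    ‖dg d c v‖ ^ 2 = ∑ i, c i ^ 2 * (‖v (Sum.inl i)‖ ^ 2 + ‖v (Sum.inr (i + d))‖ ^ 2) := by
  rw [EuclideanSpace.norm_sq_eq, Fintype.sum_sum_type]
  simp only [dg_inl, dg_inr, norm_mul, Complex.norm_real, mul_pow, Real.norm_eq_abs, sq_abs]
  rw [shift_sum d (fun i => c i ^ 2 * ‖v (Sum.inl i)‖ ^ 2), ← Finset.sum_add_distrib]
  exact Finset.sum_congr rfl fun i _ => by ring

theorem norm_split (d : G) (v : EuclideanSpace ℂ (G ⊕ G)) :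
    ‖v‖ ^ 2 = ∑ i, (‖v (Sum.inl i)‖ ^ 2 + ‖v (Sum.inr (i + d))‖ ^ 2) := by
  rw [EuclideanSpace.norm_sq_eq, Fintype.sum_sum_type, Finset.sum_add_distrib]
  congr 1
  exact (Fintype.sum_equiv (Equiv.addRight d) (fun i => ‖v (Sum.inr (i + d))‖ ^ 2)
    (fun i => ‖v (Sum.inr i)‖ ^ 2) fun _ => rfl).symm

end diag

/-- **Rounding.** Let `A` be a real matrix with entries of absolute value at most `1` and with
`1 - A_ij ^ 2 ≤ v`. There is a sign matrix `S` such that `S - A` has operator norm at most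
`n θ v + log (2 n) / θ`, where `0 < θ ≤ 1 / 2` is arbitrary. -/
theorem round {G : Type} [Fintype G] [DecidableEq G] [AddCommGroup G] (A : G → G → ℝ)
    (hA : ∀ i j, |A i j| ≤ 1) (v : ℝ) (hv0 : 0 ≤ v) (hv : ∀ i j, 1 - A i j ^ 2 ≤ v) (θ : ℝ) (hθ : 0 < θ)
    (hθ1 : θ ≤ 1 / 2) :
    ∃ S : G → G → ℝ, (∀ i j, S i j = 1 ∨ S i j = -1) ∧
      ∀ x y : G → ℝ, 2 * θ * ∑ i, ∑ j, (S i j - A i j) * x i * y j ≤
        ((Fintype.card G : ℝ) * θ ^ 2 * v + Real.log (2 * Fintype.card G)) *
          (∑ i, x i ^ 2 + ∑ i, y i ^ 2) := by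
  classical
  set n := Fintype.card G with hn
  have hn1 : 1 ≤ n := Fintype.card_pos
  have hn1' : (1 : ℝ) ≤ n := by exact_mod_cast hn1
  set w : G → (G → Bool) → ℝ := fun d z => ∏ i, pr (A i (i + d)) (z i) with hw
  set c : G → (G → Bool) → G → ℝ := fun d z i => θ * (sg (z i) - A i (i + d)) with hc
  have hcb : ∀ d z i, |c d z i| ≤ 1 := by
    intro d z i
    have h1 : |sg (z i) - A i (i + d)| ≤ 2 := by
      have h2 := abs_le.1 (hA i (i + d))
      rcases sg_sq (z i) with h | h <;> rw [h, abs_le] <;> constructor <;> linarith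
    rw [hc]
    simp only
    rw [abs_mul, abs_of_pos hθ]
    nlinarith [abs_nonneg (sg (z i) - A i (i + d))]
  have hp1 : ∀ d i, ∑ b, pr (A i (i + d)) b = 1 := fun d i => pr_sum _
  obtain ⟨z, hz⟩ := choose (V := EuclideanSpace ℂ (G ⊕ G)) (ι := G) (Z := fun _ => G → Bool) w
    (fun d z => Finset.prod_nonneg fun i _ => pr_nonneg (hA _ _) _)
    (fun d => prod_sum_one _ (hp1 d)) (fun d z => dg d (c d z)) (fun d z => dg_symm d _)
    (by
      intro d z u
      have h1 : ‖dg d (c d z) u‖ ^ 2 ≤ ‖u‖ ^ 2 := by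
        rw [dg_norm, norm_split d u]
        refine Finset.sum_le_sum fun i _ => ?_
        have h2 : c d z i ^ 2 ≤ 1 := by
          rw [← sq_abs]
          exact pow_le_one₀ (abs_nonneg _) (hcb d z i)
        nlinarith [sq_nonneg ‖u (Sum.inl i)‖, sq_nonneg ‖u (Sum.inr (i + d))‖]
      exact (sq_le_sq₀ (norm_nonneg _) (norm_nonneg _)).1 h1)
    (by
      intro d u
      have h1 : ∀ z : G → Bool, w d z * (⟪u, dg d (c d z) u⟫_ℂ).re =
          ∑ i, ((∏ j, pr (A j (j + d)) (z j)) * (sg (z i) - A i (i + d))) *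
            (θ * ((u (Sum.inl i) * (starRingEnd ℂ) (u (Sum.inr (i + d))) +
              u (Sum.inr (i + d)) * (starRingEnd ℂ) (u (Sum.inl i))).re)) := by
        intro z
        have h0 : (⟪u, dg d (c d z) u⟫_ℂ).re = (⟪dg d (c d z) u, u⟫_ℂ).re := inner_re_symm (𝕜 := ℂ) _ _
        rw [h0, dg_inner, Complex.re_sum, Finset.mul_sum]
        refine Finset.sum_congr rfl fun i _ => ?_
        rw [Complex.re_ofReal_mul, hw, hc]
        simp only
        ring
      rw [Finset.sum_congr rfl fun z _ => h1 z, Finset.sum_comm]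
      refine Finset.sum_eq_zero fun i _ => ?_
      rw [← Finset.sum_mul]
      rw [marginal (fun j b => pr (A j (j + d)) b) (hp1 d) (fun b => sg b - A i (i + d)) i, pr_mean,
        zero_mul])
    (θ ^ 2 * v) (by positivity)
    (by
      intro d u
      have h1 : ∀ z : G → Bool, w d z * ‖dg d (c d z) u‖ ^ 2 =
          ∑ i, ((∏ j, pr (A j (j + d)) (z j)) * (sg (z i) - A i (i + d)) ^ 2) *
            (θ ^ 2 * (‖u (Sum.inl i)‖ ^ 2 + ‖u (Sum.inr (i + d))‖ ^ 2)) := by
        intro z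
        rw [dg_norm, Finset.mul_sum]
        refine Finset.sum_congr rfl fun i _ => ?_
        rw [hw, hc]
        simp only
        ring
      rw [Finset.sum_congr rfl fun z _ => h1 z, Finset.sum_comm, norm_split d u, Finset.mul_sum]
      refine Finset.sum_le_sum fun i _ => ?_
      rw [← Finset.sum_mul]
      rw [marginal (fun j b => pr (A j (j + d)) b) (hp1 d) (fun b => (sg b - A i (i + d)) ^ 2) i, pr_var]
      have h2 := hv i (i + d)
      have h3 : 0 ≤ θ ^ 2 * (‖u (Sum.inl i)‖ ^ 2 + ‖u (Sum.inr (i + d))‖ ^ 2) := by positivity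
      nlinarith) univ
  refine ⟨fun i j => sg (z (j - i) i), fun i j => sg_sq _, ?_⟩
  intro x y
  set T : Module.End ℂ (EuclideanSpace ℂ (G ⊕ G)) := ∑ d, dg d (c d (z d)) with hT
  have hTs : T.IsSymmetric := by
    intro v u
    rw [hT, LinearMap.sum_apply, LinearMap.sum_apply, sum_inner, inner_sum]
    exact Finset.sum_congr rfl fun d _ => dg_symm d _ v u
  have hL : rtr (ex T) ≤ Real.exp ((n : ℝ) * θ ^ 2 * v + Real.log (2 * n)) := by
    refine hz.trans ?_
    rw [Real.exp_add, Real.exp_log (by positivity), finrank_euclideanSpace, Fintype.card_sum,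
      Finset.card_univ, ← hn]
    have h1 : (1 + θ ^ 2 * v) ^ n ≤ Real.exp ((n : ℝ) * θ ^ 2 * v) := by
      have h2 : 1 + θ ^ 2 * v ≤ Real.exp (θ ^ 2 * v) := by
        linarith [Real.add_one_le_exp (θ ^ 2 * v)]
      calc (1 + θ ^ 2 * v) ^ n ≤ Real.exp (θ ^ 2 * v) ^ n := pow_le_pow_left₀ (by positivity) h2 n
        _ = Real.exp ((n : ℝ) * θ ^ 2 * v) := by rw [← Real.exp_nat_mul]; ring_nf
    have h3 : ((n + n : ℕ) : ℝ) = 2 * n := by push_cast; ring
    rw [h3]
    exact mul_le_mul_of_nonneg_right h1 (by positivity)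
  set q : EuclideanSpace ℂ (G ⊕ G) := WithLp.toLp 2 (Sum.elim (fun i => (x i : ℂ)) (fun j => (y j : ℂ)))
    with hq
  have hql : ∀ i, q (Sum.inl i) = (x i : ℂ) := fun i => rfl
  have hqr : ∀ i, q (Sum.inr i) = (y i : ℂ) := fun i => rfl
  have h5 := form_le T hTs _ hL q
  have h6 : ‖q‖ ^ 2 = ∑ i, x i ^ 2 + ∑ i, y i ^ 2 := by
    rw [EuclideanSpace.norm_sq_eq, Fintype.sum_sum_type]
    simp only [hql, hqr, Complex.norm_real, Real.norm_eq_abs, sq_abs]
  have h7 : (⟪T q, q⟫_ℂ).re = 2 * θ * ∑ i, ∑ j, (sg (z (j - i) i) - A i j) * x i * y j := by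
    rw [hT, LinearMap.sum_apply, sum_inner, Complex.re_sum]
    have h8 : ∀ d, (⟪dg d (c d (z d)) q, q⟫_ℂ).re =
        ∑ i, 2 * θ * ((sg (z d i) - A i (i + d)) * x i * y (i + d)) := by
      intro d
      rw [dg_inner, Complex.re_sum]
      refine Finset.sum_congr rfl fun i _ => ?_
      rw [hql, hqr, Complex.conj_ofReal, Complex.conj_ofReal, ← Complex.ofReal_mul, ← Complex.ofReal_mul,
        ← Complex.ofReal_add, ← Complex.ofReal_mul, Complex.ofReal_re, hc]
      ring
    rw [Finset.sum_congr rfl fun d _ => h8 d, Finset.sum_comm, Finset.mul_sum]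
    refine Finset.sum_congr rfl fun i _ => ?_
    rw [Finset.mul_sum]
    refine Fintype.sum_equiv (Equiv.addLeft i) _ _ fun d => ?_
    rw [Equiv.coe_addLeft, add_sub_cancel_left]
  rw [← h7, ← h6]
  exact h5

end Pool.Agent.Y302.AH
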