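import Pool.Agent.H726R2.RD.GT
import Pool.Agent.H409R2.RD.EXB

/-!
# Successive choice of independent random symmetric operators (Ahlswede-Winter)

If at every step a symmetric operator of norm at most one is drawn, with mean zero and with second moment at
most `ρ`, then the draws can be made such that the trace of the exponential of the sum is at most
`(1 + ρ) ^ m` times the dimension. The Golden-Thompson inequality is from the starting files
(`Pool.Agent.H726R2.RD.GT`); the argument for one step is that of `Pool.Agent.H505RS.MB`.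
-/

set_option autoImplicit false

noncomputable section

namespace Pool.Agent.Y302.AH

open RC14
open scoped InnerProductSpace
open Finset

variable {V : Type} [NormedAddCommGroup V] [InnerProductSpace ℂ V] [FiniteDimensional ℂ V]

theorem exp_le (x : ℝ) (hx : |x| ≤ 1) : Real.exp x ≤ 1 + x + x ^ 2 := by
  have := (abs_le.1 (Real.abs_exp_sub_one_sub_id_le hx)).2
  linarith

theorem quad_le (X : Module.End ℂ V) (hX : X.IsSymmetric) (hb : ∀ v, ‖X v‖ ≤ ‖v‖) (v : V) :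
    (⟪ex X v, v⟫_ℂ).re ≤ ‖v‖ ^ 2 + (⟪v, X v⟫_ℂ).re + ‖X v‖ ^ 2 := by
  obtain ⟨n, b, ν, h1, h2⟩ := EXB.diag X hX
  have e1 := EXB.quad b (ex X) (fun i => Real.exp (ν i)) h2 v
  have e2 := EXB.quad b X ν h1 v
  have h3 : ∀ i, (X * X) (b i) = ((ν i ^ 2 : ℝ) : ℂ) • b i := by
    intro i
    rw [Module.End.mul_apply, h1, map_smul, h1, smul_smul]
    push_cast
    rw [sq]
  have e3 := EXB.quad b (X * X) (fun i => ν i ^ 2) h3 v
  have e3' : (⟪(X * X) v, v⟫_ℂ).re = ‖X v‖ ^ 2 := by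
    rw [Module.End.mul_apply, hX (X v) v]
    exact inner_self_eq_norm_sq (𝕜 := ℂ) (X v)
  have e4 := b.sum_sq_norm_inner_right v
  have hν : ∀ i, |ν i| ≤ 1 := by
    intro i
    have := hb (b i)
    rw [h1, norm_smul, b.norm_eq_one, mul_one, Complex.norm_real] at this
    exact this
  have e5 : (⟪v, X v⟫_ℂ).re = (⟪X v, v⟫_ℂ).re := inner_re_symm (𝕜 := ℂ) v (X v)
  rw [e5, e1, e2, ← e3', e3, ← e4, ← Finset.sum_add_distrib, ← Finset.sum_add_distrib]
  refine Finset.sum_le_sum fun i _ => ?_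
  have := exp_le _ (hν i)
  nlinarith [sq_nonneg ‖⟪b i, v⟫_ℂ‖]

theorem step1 (S X : Module.End ℂ V) (hS : S.IsSymmetric) (hX : X.IsSymmetric)
    (hb : ∀ v, ‖X v‖ ≤ ‖v‖) {n : ℕ} (b : OrthonormalBasis (Fin n) ℂ V) (μ : Fin n → ℝ)
    (h2 : ∀ i, ex S (b i) = ((Real.exp (μ i) : ℝ) : ℂ) • b i) :
    rtr (ex (S + X)) ≤
      ∑ i, Real.exp (μ i) * (1 + (⟪b i, X (b i)⟫_ℂ).re + ‖X (b i)‖ ^ 2) := by
  refine (GT S X hS hX).trans ?_
  unfold rtr
  rw [LinearMap.trace_eq_sum_inner _ b, Complex.re_sum]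
  refine Finset.sum_le_sum fun i _ => ?_
  have hsS := ex_symm S hS
  have e1 : ⟪b i, (ex S * ex X) (b i)⟫_ℂ =
      ((Real.exp (μ i) : ℝ) : ℂ) * ⟪b i, ex X (b i)⟫_ℂ := by
    rw [Module.End.mul_apply, ← hsS (b i) (ex X (b i)), h2, inner_smul_left,
      Complex.conj_ofReal]
  rw [e1, Complex.re_ofReal_mul]
  have h3 := quad_le X hX hb (b i)
  rw [b.norm_eq_one, one_pow] at h3
  have h4 : (⟪b i, ex X (b i)⟫_ℂ).re = (⟪ex X (b i), b i⟫_ℂ).re :=
    inner_re_symm (𝕜 := ℂ) _ _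
  rw [h4]
  exact mul_le_mul_of_nonneg_left h3 (Real.exp_pos _).le

/-- One step: some draw does not increase the trace by more than the factor `1 + ρ`. -/
theorem step {Z : Type} [Fintype Z] (w : Z → ℝ) (hw : ∀ z, 0 ≤ w z) (hw1 : ∑ z, w z = 1)
    (X : Z → Module.End ℂ V) (hX : ∀ z, (X z).IsSymmetric) (hb : ∀ z v, ‖X z v‖ ≤ ‖v‖)
    (hmean : ∀ v, ∑ z, w z * (⟪v, X z v⟫_ℂ).re = 0) (ρ : ℝ)
    (hvar : ∀ v, ∑ z, w z * ‖X z v‖ ^ 2 ≤ ρ * ‖v‖ ^ 2)
    (S : Module.End ℂ V) (hS : S.IsSymmetric) :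
    ∃ z, rtr (ex (S + X z)) ≤ (1 + ρ) * rtr (ex S) := by
  obtain ⟨n, b, μ, h1, h2⟩ := EXB.diag S hS
  have hstep := fun z => step1 S (X z) hS (hX z) (hb z) b μ h2
  have hsum : ∑ z, w z * rtr (ex (S + X z)) ≤ (1 + ρ) * rtr (ex S) := by
    calc ∑ z, w z * rtr (ex (S + X z))
        ≤ ∑ z, w z * ∑ i, Real.exp (μ i) * (1 + (⟪b i, X z (b i)⟫_ℂ).re + ‖X z (b i)‖ ^ 2) :=
          Finset.sum_le_sum fun z _ => mul_le_mul_of_nonneg_left (hstep z) (hw z)
      _ = ∑ i, Real.exp (μ i) * (∑ z, w z + ∑ z, w z * (⟪b i, X z (b i)⟫_ℂ).re +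
            ∑ z, w z * ‖X z (b i)‖ ^ 2) := by
          simp_rw [Finset.mul_sum]
          rw [Finset.sum_comm]
          refine Finset.sum_congr rfl fun i _ => ?_
          rw [← Finset.sum_add_distrib, ← Finset.sum_add_distrib, Finset.mul_sum]
          exact Finset.sum_congr rfl fun z _ => by ring
      _ ≤ ∑ i, Real.exp (μ i) * (1 + ρ) := by
          refine Finset.sum_le_sum fun i _ => mul_le_mul_of_nonneg_left ?_ (Real.exp_pos _).le
          have h3 := hvar (b i)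
          rw [b.norm_eq_one, one_pow, mul_one] at h3
          rw [hw1, hmean]
          linarith
      _ = (1 + ρ) * rtr (ex S) := by
          rw [EXB.tr_eig b (ex S) (fun i => Real.exp (μ i)) h2, Finset.mul_sum]
          exact Finset.sum_congr rfl fun i _ => by ring
  by_contra hcon
  push Not at hcon
  have h4 : ∑ z, w z * ((1 + ρ) * rtr (ex S)) ≤ ∑ z, w z * rtr (ex (S + X z)) :=
    Finset.sum_le_sum fun z _ => mul_le_mul_of_nonneg_left (hcon z).le (hw z)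
  rw [← Finset.sum_mul, hw1, one_mul] at h4
  have h5 : ∑ z, w z * rtr (ex (S + X z)) = (1 + ρ) * rtr (ex S) := le_antisymm hsum h4
  have h6 : ∑ z, w z * (rtr (ex (S + X z)) - (1 + ρ) * rtr (ex S)) = 0 := by
    simp_rw [mul_sub]
    rw [Finset.sum_sub_distrib, ← Finset.sum_mul, hw1, one_mul, h5, sub_self]
  have h7 : ∀ z ∈ (univ : Finset Z), w z * (rtr (ex (S + X z)) - (1 + ρ) * rtr (ex S)) = 0 :=
    (Finset.sum_eq_zero_iff_of_nonneg fun z _ => mul_nonneg (hw z) (by linarith [hcon z])).1 h6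
  have h8 : ∀ z, w z = 0 := by
    intro z
    rcases mul_eq_zero.1 (h7 z (mem_univ z)) with h | h
    · exact h
    · exact absurd h (by linarith [hcon z])
  rw [Finset.sum_congr rfl fun z _ => h8 z, Finset.sum_const_zero] at hw1
  exact zero_ne_one hw1

/-- Successive choice of the draws. -/
theorem choose {ι : Type} {Z : ι → Type} [∀ i, Fintype (Z i)] [∀ i, Nonempty (Z i)]
    (w : ∀ i, Z i → ℝ) (hw : ∀ i z, 0 ≤ w i z)
    (hw1 : ∀ i, ∑ z, w i z = 1) (X : ∀ i, Z i → Module.End ℂ V) (hX : ∀ i z, (X i z).IsSymmetric)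
    (hb : ∀ i z v, ‖X i z v‖ ≤ ‖v‖) (hmean : ∀ i v, ∑ z, w i z * (⟪v, X i z v⟫_ℂ).re = 0) (ρ : ℝ)
    (hρ : 0 ≤ ρ) (hvar : ∀ i v, ∑ z, w i z * ‖X i z v‖ ^ 2 ≤ ρ * ‖v‖ ^ 2) (s : Finset ι) :
    ∃ z : ∀ i, Z i, rtr (ex (∑ i ∈ s, X i (z i))) ≤ (1 + ρ) ^ s.card * Module.finrank ℂ V := by
  classical
  induction s using Finset.induction_on with
  | empty =>
    refine ⟨fun i => Classical.arbitrary _, ?_⟩
    rw [sum_empty, ex_zero, card_empty, pow_zero, one_mul]
    unfold rtr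
    rw [LinearMap.trace_one]
    simp
  | insert a s ha ih =>
    obtain ⟨z, hz⟩ := ih
    have hS : (∑ i ∈ s, X i (z i)).IsSymmetric := by
      intro v u
      rw [LinearMap.sum_apply, LinearMap.sum_apply, sum_inner, inner_sum]
      exact Finset.sum_congr rfl fun i _ => hX i (z i) v u
    obtain ⟨y, hy⟩ := step (w a) (hw a) (hw1 a) (X a) (hX a) (hb a) (hmean a) ρ (hvar a) _ hS
    refine ⟨Function.update z a y, ?_⟩
    rw [Finset.sum_insert ha, card_insert_of_notMem ha, Function.update_self, add_comm]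
    have h1 : ∑ i ∈ s, X i (Function.update z a y i) = ∑ i ∈ s, X i (z i) := by
      refine Finset.sum_congr rfl fun i hi => ?_
      rw [Function.update_of_ne]
      rintro rfl
      exact ha hi
    rw [h1]
    refine hy.trans ?_
    rw [pow_succ, mul_comm ((1 + ρ) ^ s.card), mul_assoc]
    exact mul_le_mul_of_nonneg_left hz (by linarith)

/-- The quadratic form is bounded by the logarithm of the trace of the exponential. -/
theorem form_le (S : Module.End ℂ V) (hS : S.IsSymmetric) (L : ℝ) (hL : rtr (ex S) ≤ Real.exp L) (v : V) :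
    (⟪S v, v⟫_ℂ).re ≤ L * ‖v‖ ^ 2 := by
  by_cases hv : v = 0
  · rw [hv]; simp
  have hn : 0 < ‖v‖ := norm_pos_iff.2 hv
  set u : V := ((‖v‖⁻¹ : ℝ) : ℂ) • v with hu
  have hu1 : ‖u‖ = 1 := by
    rw [hu, norm_smul, Complex.norm_real, norm_inv, norm_norm, inv_mul_cancel₀ hn.ne']
  have h1 := (ex_jensen S hS u hu1).trans ((ex_le_tr S hS u hu1).trans hL)
  have h2 := Real.exp_le_exp.1 h1
  have h3 : (⟪S u, u⟫_ℂ).re = ‖v‖⁻¹ ^ 2 * (⟪S v, v⟫_ℂ).re := by
    rw [hu, map_smul, inner_smul_left, inner_smul_right, Complex.conj_ofReal, Complex.re_ofReal_mul,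
      Complex.re_ofReal_mul]
    ring
  rw [h3] at h2
  have h4 : (⟪S v, v⟫_ℂ).re = ‖v‖ ^ 2 * (‖v‖⁻¹ ^ 2 * (⟪S v, v⟫_ℂ).re) := by
    field_simp
  rw [h4, mul_comm L]
  exact mul_le_mul_of_nonneg_left h2 (by positivity)

end Pool.Agent.Y302.AH
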