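import Pool.Agent.Y302.AH.Round

/-!
# A block of a Hadamard matrix, corrected and rounded
-/

set_option autoImplicit false

noncomputable section

namespace Pool.Agent.Y302.AH

open Finset Matrix

/-! ### the Euclidean norm -/

/-- the Euclidean norm -/
def nm {ι : Type} [Fintype ι] (x : ι → ℝ) : ℝ := Real.sqrt (∑ i, x i ^ 2)

section nm

variable {ι : Type} [Fintype ι]

theorem nm_eq (x : ι → ℝ) : nm x = ‖(WithLp.toLp 2 x : EuclideanSpace ℝ ι)‖ := by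
  rw [EuclideanSpace.norm_eq, nm]
  congr 1
  exact Finset.sum_congr rfl fun i _ => by rw [Real.norm_eq_abs, sq_abs]

theorem nm_nonneg (x : ι → ℝ) : 0 ≤ nm x := Real.sqrt_nonneg _

theorem nm_sq (x : ι → ℝ) : nm x ^ 2 = ∑ i, x i ^ 2 :=
  Real.sq_sqrt (Finset.sum_nonneg fun i _ => sq_nonneg _)

theorem nm_sq_dot (x : ι → ℝ) : nm x ^ 2 = x ⬝ᵥ x := by
  rw [nm_sq, dotProduct]
  exact Finset.sum_congr rfl fun i _ => by ring

theorem nm_sub_le (x y : ι → ℝ) : |nm x - nm y| ≤ nm (x - y) := by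
  rw [nm_eq, nm_eq, nm_eq]
  exact abs_norm_sub_norm_le _ _

theorem nm_smul (c : ℝ) (x : ι → ℝ) : nm (c • x) = |c| * nm x := by
  rw [nm_eq, nm_eq, WithLp.toLp_smul, norm_smul, Real.norm_eq_abs]

theorem dot_le (x y : ι → ℝ) : |x ⬝ᵥ y| ≤ nm x * nm y := by
  have h := abs_real_inner_le_norm (WithLp.toLp 2 y : EuclideanSpace ℝ ι) (WithLp.toLp 2 x)
  rw [← nm_eq, ← nm_eq, mul_comm] at h
  have e : inner ℝ (WithLp.toLp 2 y : EuclideanSpace ℝ ι) (WithLp.toLp 2 x) = x ⬝ᵥ y := by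
    rw [PiLp.inner_apply, dotProduct]
    exact Finset.sum_congr rfl fun i _ => by simp
  rw [e] at h
  exact h

theorem nm_zero {x : ι → ℝ} (h : nm x = 0) : x = 0 := by
  rw [nm_eq, norm_eq_zero] at h
  exact (WithLp.toLp_eq_zero 2).1 h

end nm

/-- an operator bound from a bound for the bilinear form -/
theorem op_le {ι : Type} [Fintype ι] (B : Matrix ι ι ℝ) (θ Q : ℝ) (hθ : 0 < θ)
    (h : ∀ x y : ι → ℝ, 2 * θ * ∑ i, ∑ j, B i j * x i * y j ≤ Q * (∑ i, x i ^ 2 + ∑ i, y i ^ 2))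
    (y : ι → ℝ) : nm (B *ᵥ y) ≤ Q / θ * nm y := by
  have h0 : ∀ x y : ι → ℝ, θ * (2 * (x ⬝ᵥ (B *ᵥ y))) ≤ Q * (nm x ^ 2 + nm y ^ 2) := by
    intro x y
    have := h x y
    rw [nm_sq, nm_sq]
    refine le_trans (le_of_eq ?_) this
    rw [mul_assoc 2, mul_left_comm 2]
    congr 2
    simp only [dotProduct, mulVec, Finset.mul_sum]
    exact Finset.sum_congr rfl fun i _ => Finset.sum_congr rfl fun j _ => by ring
  set z := B *ᵥ y with hz
  -- the choice `x = (nm y / nm z) z`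
  by_cases hz0 : nm z = 0
  · rw [hz0]
    by_cases hy0 : nm y = 0
    · rw [hy0]; simp
    · have h1 := h0 0 y
      have h2 : nm (0 : ι → ℝ) = 0 := by simp [nm]
      rw [h2, zero_dotProduct] at h1
      have h3 : 0 < nm y := lt_of_le_of_ne (nm_nonneg y) (Ne.symm hy0)
      have h4 : 0 ≤ Q := by
        by_contra hc
        push Not at hc
        have : 0 < nm y ^ 2 := by positivity
        nlinarith
      positivity
  · have hzp : 0 < nm z := lt_of_le_of_ne (nm_nonneg z) (Ne.symm hz0)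
    have h1 := h0 ((nm y / nm z) • z) y
    rw [nm_smul, abs_of_nonneg (div_nonneg (nm_nonneg y) hzp.le), ← hz, smul_dotProduct, smul_eq_mul,
      ← nm_sq_dot, div_mul_cancel₀ _ hzp.ne'] at h1
    have e1 : nm y / nm z * nm z ^ 2 = nm y * nm z := by field_simp
    rw [e1] at h1
    by_cases hy0 : nm y = 0
    · have h5 : y = 0 := nm_zero hy0
      have h6 : z = 0 := by rw [hz, h5, mulVec_zero]
      rw [h6] at hz0
      exact absurd (by simp [nm]) hz0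
    · have hyp : 0 < nm y := lt_of_le_of_ne (nm_nonneg y) (Ne.symm hy0)
      have h2 : θ * nm z ≤ Q * nm y := by
        have h3 : nm y * (θ * nm z) ≤ nm y * (Q * nm y) := by nlinarith
        exact le_of_mul_le_mul_left h3 hyp
      rw [div_mul_eq_mul_div, le_div_iff₀ hθ]
      linarith

section block

variable {ι κ : Type} [Fintype ι] [DecidableEq ι] [Fintype κ] [DecidableEq κ]

theorem blocks (H : Matrix (ι ⊕ κ) (ι ⊕ κ) ℝ) (N : ℝ) (hH : H.transpose * H = N • 1) :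
    H.toBlocks₁₁.transpose * H.toBlocks₁₁ + H.toBlocks₂₁.transpose * H.toBlocks₂₁ = N • 1 ∧
    H.toBlocks₁₁.transpose * H.toBlocks₁₂ + H.toBlocks₂₁.transpose * H.toBlocks₂₂ = 0 ∧
    H.toBlocks₁₂.transpose * H.toBlocks₁₂ + H.toBlocks₂₂.transpose * H.toBlocks₂₂ = N • 1 := by
  rw [← fromBlocks_toBlocks H, fromBlocks_transpose, fromBlocks_multiply, ← fromBlocks_one,
    fromBlocks_smul, fromBlocks_inj] at hH
  simp only [smul_zero] at hH
  exact ⟨hH.1, hH.2.1, hH.2.2.2⟩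

theorem quad1 {μ : Type} [Fintype μ] (M : Matrix μ ι ℝ) (R : Matrix κ ι ℝ) (N : ℝ)
    (h : M.transpose * M + R.transpose * R = N • 1) (x : ι → ℝ) :
    nm (M *ᵥ x) ^ 2 + nm (R *ᵥ x) ^ 2 = N * nm x ^ 2 := by
  have h1 : x ⬝ᵥ ((M.transpose * M + R.transpose * R) *ᵥ x) = x ⬝ᵥ ((N • (1 : Matrix ι ι ℝ)) *ᵥ x) := by rw [h]
  rw [add_mulVec, dotProduct_add, ← mulVec_mulVec, ← mulVec_mulVec, smul_mulVec, one_mulVec,
    dotProduct_smul, smul_eq_mul] at h1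
  rw [nm_sq_dot, nm_sq_dot, nm_sq_dot, ← h1, dotProduct_mulVec x, vecMul_transpose,
    dotProduct_mulVec x, vecMul_transpose]

theorem entry_le (D : Matrix κ ι ℝ) (hD : ∀ i j, |D i j| ≤ 1) (x : ι → ℝ) :
    nm (D *ᵥ x) ^ 2 ≤ Fintype.card κ * Fintype.card ι * nm x ^ 2 := by
  rw [nm_sq (D *ᵥ x)]
  have h1 : ∀ i, (D *ᵥ x) i ^ 2 ≤ Fintype.card ι * nm x ^ 2 := by
    intro i
    have h2 : (D *ᵥ x) i ^ 2 ≤ (∑ j, D i j ^ 2) * (∑ j, x j ^ 2) :=
      Finset.sum_mul_sq_le_sq_mul_sq _ _ _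
    rw [← nm_sq x] at h2
    refine h2.trans (mul_le_mul_of_nonneg_right ?_ (sq_nonneg _))
    calc ∑ j, D i j ^ 2 ≤ ∑ j : ι, (1 : ℝ) := Finset.sum_le_sum fun j _ => by
          rw [← sq_abs]; exact pow_le_one₀ (abs_nonneg _) (hD i j)
      _ = Fintype.card ι := by simp
  calc ∑ i, (D *ᵥ x) i ^ 2 ≤ ∑ i : κ, (Fintype.card ι * nm x ^ 2 : ℝ) := Finset.sum_le_sum fun i _ => h1 i
    _ = Fintype.card κ * Fintype.card ι * nm x ^ 2 := by
        rw [Finset.sum_const, Finset.card_univ, nsmul_eq_mul]; ring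

/-- The corrected block is almost an isometry up to the factor `√ N`. -/
theorem corrected (H : Matrix (ι ⊕ κ) (ι ⊕ κ) ℝ) (hs : ∀ i j, |H i j| ≤ 1) (N : ℝ) (hN : 0 < N)
    (hH : H.transpose * H = N • 1) (x : ι → ℝ) :
    |nm ((H.toBlocks₁₁ + (Real.sqrt N)⁻¹ • (H.toBlocks₁₂ * H.toBlocks₂₁)) *ᵥ x) - Real.sqrt N * nm x| ≤
      (2 * Fintype.card κ + Fintype.card κ ^ 2 / Real.sqrt N) * nm x := by
  obtain ⟨h1, h2, h3⟩ := blocks H N hH
  set M := H.toBlocks₁₁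
  set C := H.toBlocks₁₂
  set R := H.toBlocks₂₁
  set D := H.toBlocks₂₂ with hD
  set r : ℝ := ((Fintype.card κ : ℕ) : ℝ) with hr
  have hr0 : 0 ≤ r := Nat.cast_nonneg _
  set q := Real.sqrt N with hq
  have hq0 : 0 < q := Real.sqrt_pos.2 hN
  have hq2 : q ^ 2 = N := Real.sq_sqrt hN.le
  set y := R *ᵥ x with hy
  have e1 := quad1 M R N h1 x
  have e3 := quad1 C D N h3 y
  have e2 : (M *ᵥ x) ⬝ᵥ (C *ᵥ y) = - (y ⬝ᵥ (D *ᵥ y)) := by
    have h4 : x ⬝ᵥ ((M.transpose * C + R.transpose * D) *ᵥ y) = 0 := by rw [h2]; simp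
    rw [add_mulVec, dotProduct_add, ← mulVec_mulVec, ← mulVec_mulVec, dotProduct_mulVec x,
      vecMul_transpose, dotProduct_mulVec x, vecMul_transpose] at h4
    linarith
  have hDy : nm (D *ᵥ y) ≤ r * nm y := by
    have h5 := entry_le D (fun i j => hs _ _) y
    have h6 : nm (D *ᵥ y) ^ 2 ≤ (r * nm y) ^ 2 := by rw [mul_pow]; linarith
    exact (sq_le_sq₀ (nm_nonneg _) (mul_nonneg hr0 (nm_nonneg _))).1 h6
  have hyx : nm y ^ 2 ≤ N * nm x ^ 2 := by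
    have := sq_nonneg (nm (M *ᵥ x))
    linarith
  have hyDy : |y ⬝ᵥ (D *ᵥ y)| ≤ r * nm y ^ 2 := by
    refine (dot_le _ _).trans ?_
    have := mul_le_mul_of_nonneg_left hDy (nm_nonneg y)
    nlinarith
  have eA : (M + q⁻¹ • (C * R)) *ᵥ x = M *ᵥ x + q⁻¹ • (C *ᵥ y) := by
    rw [add_mulVec, smul_mulVec, ← mulVec_mulVec]
  have key : nm ((M + q⁻¹ • (C * R)) *ᵥ x) ^ 2 - N * nm x ^ 2 =
      - 2 * q⁻¹ * (y ⬝ᵥ (D *ᵥ y)) - q⁻¹ ^ 2 * nm (D *ᵥ y) ^ 2 := by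
    rw [eA, nm_sq_dot, add_dotProduct, dotProduct_add, dotProduct_add, smul_dotProduct, smul_dotProduct,
      dotProduct_smul, dotProduct_smul, ← nm_sq_dot, ← nm_sq_dot, dotProduct_comm (C *ᵥ y) (M *ᵥ x), e2]
    simp only [smul_eq_mul]
    have e4 : nm (C *ᵥ y) ^ 2 = N * nm y ^ 2 - nm (D *ᵥ y) ^ 2 := by linarith
    have e5 : nm (M *ᵥ x) ^ 2 = N * nm x ^ 2 - nm y ^ 2 := by linarith
    rw [e4, e5, ← hq2]
    field_simp
    ring
  have hb : |nm ((M + q⁻¹ • (C * R)) *ᵥ x) ^ 2 - N * nm x ^ 2| ≤ (2 * r * q + r ^ 2) * nm x ^ 2 := by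
    rw [key]
    have h7 : |(-2 * q⁻¹ * (y ⬝ᵥ (D *ᵥ y)) - q⁻¹ ^ 2 * nm (D *ᵥ y) ^ 2)| ≤
        2 * q⁻¹ * (r * nm y ^ 2) + q⁻¹ ^ 2 * (r * nm y) ^ 2 := by
      refine (abs_sub _ _).trans ?_
      rw [abs_mul, abs_mul, abs_of_nonneg (by positivity : (0 : ℝ) ≤ q⁻¹ ^ 2 * nm (D *ᵥ y) ^ 2),
        abs_of_nonneg (by positivity : (0 : ℝ) ≤ q⁻¹)]
      have h8 : |(-2 : ℝ)| = 2 := by norm_num
      rw [h8]
      have h9 : nm (D *ᵥ y) ^ 2 ≤ (r * nm y) ^ 2 := pow_le_pow_left₀ (nm_nonneg _) hDy 2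
      have h10 : 0 ≤ q⁻¹ := by positivity
      gcongr
    refine h7.trans ?_
    have h11 : 2 * q⁻¹ * (r * nm y ^ 2) + q⁻¹ ^ 2 * (r * nm y) ^ 2 =
        (2 * q⁻¹ * r + q⁻¹ ^ 2 * r ^ 2) * nm y ^ 2 := by ring
    rw [h11]
    calc (2 * q⁻¹ * r + q⁻¹ ^ 2 * r ^ 2) * nm y ^ 2 ≤
        (2 * q⁻¹ * r + q⁻¹ ^ 2 * r ^ 2) * (N * nm x ^ 2) :=
          mul_le_mul_of_nonneg_left hyx (by positivity)
      _ = (2 * r * q + r ^ 2) * nm x ^ 2 := by
          rw [← hq2]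
          field_simp
  -- from the squares to the norms
  set a := nm ((M + q⁻¹ • (C * R)) *ᵥ x) with ha
  have ha0 : 0 ≤ a := nm_nonneg _
  have hx0 : 0 ≤ nm x := nm_nonneg _
  by_cases hx : nm x = 0
  · have hx' : x = 0 := nm_zero hx
    have : a = 0 := by
      rw [ha, hx', mulVec_zero]; simp [nm]
    rw [this, hx]
    simp
  · have hxp : 0 < nm x := lt_of_le_of_ne hx0 (Ne.symm hx)
    have h12 : |a - q * nm x| * (q * nm x) ≤ (2 * r * q + r ^ 2) * nm x ^ 2 := by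
      refine le_trans ?_ hb
      have h13 : a ^ 2 - N * nm x ^ 2 = (a - q * nm x) * (a + q * nm x) := by rw [← hq2]; ring
      rw [h13, abs_mul, abs_of_nonneg (by positivity : 0 ≤ a + q * nm x)]
      exact mul_le_mul_of_nonneg_left (by linarith) (abs_nonneg _)
    have h14 : (2 * r + r ^ 2 / q) * nm x = (2 * r * q + r ^ 2) * nm x ^ 2 / (q * nm x) := by
      field_simp
    rw [h14, le_div_iff₀ (by positivity)]
    exact h12

end block

end Pool.Agent.Y302.AH
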